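import Pool.Agent.V5helper99.DC.Defs

/-!
# Project DC, job J11
-/

set_option autoImplicit false

namespace DC99

theorem J11_card {n : ℕ} (A B : Finset (Fin n)) :
    (symmDiff A B).card + 2 * (A ∩ B).card = A.card + B.card := by
  have h1 : symmDiff A B = (A \ B) ∪ (B \ A) := rfl
  have h2 : Disjoint (A \ B) (B \ A) := disjoint_sdiff_sdiff
  rw [h1, Finset.card_union_of_disjoint h2]
  have h3 := Finset.card_sdiff_add_card_inter A B
  have h4 := Finset.card_sdiff_add_card_inter B A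
  rw [Finset.inter_comm] at h4
  omega

theorem J11_even {n : ℕ} (τ : Equiv.Perm (Fin n)) (V V' : Finset (Fin n)) (hV : Odd V.card)
    (hV' : Odd V'.card) (A : Finset (Fin n)) :
    Even (symmDiff ((symmDiff A V).map τ.toEmbedding) V').card ↔ Even A.card := by
  have h1 := J11_card A V
  have h2 := J11_card ((symmDiff A V).map τ.toEmbedding) V'
  rw [Finset.card_map] at h2
  rw [Nat.odd_iff] at hV hV'
  rw [Nat.even_iff, Nat.even_iff]
  omega

theorem J11_map {n : ℕ} (τ : Equiv.Perm (Fin n)) (X : Finset (Fin n)) :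
    (X.map τ.symm.toEmbedding).map τ.toEmbedding = X := by
  ext a
  simp

theorem J11_map' {n : ℕ} (τ : Equiv.Perm (Fin n)) (X : Finset (Fin n)) :
    (X.map τ.toEmbedding).map τ.symm.toEmbedding = X := by
  ext a
  simp

theorem J11_inv {n : ℕ} (τ : Equiv.Perm (Fin n)) (V V' B : Finset (Fin n)) :
    symmDiff ((symmDiff (symmDiff ((symmDiff B V').map τ.symm.toEmbedding) V) V).map
      τ.toEmbedding) V' = B := by
  rw [symmDiff_symmDiff_cancel_right, J11_map, symmDiff_symmDiff_cancel_right]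

theorem J11_hull {n : ℕ} (φ : Finset (Fin n) → Finset (Fin n)) (T : E n ≃ᵃⁱ[ℝ] E n)
    (hT : ∀ A : Finset (Fin n), T (pt A) = pt (φ A)) (G : Set (Finset (Fin n))) :
    T '' hull G = hull (φ '' G) := by
  have h1 : (T '' hull G : Set (E n)) = (T.toAffineEquiv.toAffineMap) '' hull G := rfl
  rw [h1]
  unfold hull
  rw [AffineMap.image_convexHull]
  congr 1
  ext x
  constructor
  · rintro ⟨_, ⟨A, hA, rfl⟩, rfl⟩
    exact ⟨φ A, ⟨A, hA, rfl⟩, (hT A).symm⟩
  · rintro ⟨_, ⟨A, hA, rfl⟩, rfl⟩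
    exact ⟨pt A, ⟨A, hA, rfl⟩, hT A⟩

theorem t_J11 {n : ℕ} (τ : Equiv.Perm (Fin n)) (V V' : Finset (Fin n)) (hV : Odd V.card) (hV' : Odd V'.card)
    (T : E n ≃ᵃⁱ[ℝ] E n)
    (hT : ∀ A : Finset (Fin n), T (pt A) = pt (symmDiff ((symmDiff A V).map τ.toEmbedding) V')) :
    T '' dc n = dc n ∧ (∀ J, T '' hull (JT V J) = hull (JT V' (J.map τ.toEmbedding))) ∧
      ∀ S, T '' hull (ST V S) = hull (ST V' (S.map τ.toEmbedding)) := by
  have key := J11_hull (fun A => symmDiff ((symmDiff A V).map τ.toEmbedding) V') T hT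
  refine ⟨?_, ?_, ?_⟩
  · have h1 : dc n = hull {A : Finset (Fin n) | Even A.card} := by
      unfold dc hull
      congr 1
      ext x
      constructor
      · rintro ⟨A, hA, rfl⟩
        exact ⟨A, hA, rfl⟩
      · rintro ⟨A, hA, rfl⟩
        exact ⟨A, hA, rfl⟩
    rw [h1, key]
    congr 1
    ext B
    constructor
    · rintro ⟨A, hA, rfl⟩
      exact (J11_even τ V V' hV hV' A).mpr hA
    · intro hB
      refine ⟨symmDiff ((symmDiff B V').map τ.symm.toEmbedding) V, ?_, J11_inv τ V V' B⟩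
      show Even _
      rw [← J11_even τ V V' hV hV', J11_inv τ V V' B]
      exact hB
  · intro J
    rw [key]
    congr 1
    ext B
    constructor
    · rintro ⟨_, ⟨j, hj, rfl⟩, rfl⟩
      refine ⟨τ j, Finset.mem_map_of_mem _ hj, ?_⟩
      show symmDiff ((symmDiff (symmDiff V {j}) V).map τ.toEmbedding) V' = _
      rw [symmDiff_comm (symmDiff V {j}) V, symmDiff_symmDiff_cancel_left, Finset.map_singleton,
        symmDiff_comm]
      rfl
    · rintro ⟨j', hj', rfl⟩
      obtain ⟨j, hj, rfl⟩ := Finset.mem_map.mp hj'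
      refine ⟨symmDiff V {j}, ⟨j, hj, rfl⟩, ?_⟩
      show symmDiff ((symmDiff (symmDiff V {j}) V).map τ.toEmbedding) V' = _
      rw [symmDiff_comm (symmDiff V {j}) V, symmDiff_symmDiff_cancel_left, Finset.map_singleton,
        symmDiff_comm]
  · intro S
    rw [key]
    congr 1
    ext B
    constructor
    · rintro ⟨A, ⟨hA, hAS⟩, rfl⟩
      refine ⟨(J11_even τ V V' hV hV' A).mpr hA, ?_⟩
      show symmDiff (symmDiff ((symmDiff A V).map τ.toEmbedding) V') V' ⊆ _
      rw [symmDiff_symmDiff_cancel_right]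
      exact Finset.map_subset_map.mpr hAS
    · rintro ⟨hB, hBS⟩
      refine ⟨symmDiff ((symmDiff B V').map τ.symm.toEmbedding) V, ⟨?_, ?_⟩, J11_inv τ V V' B⟩
      · rw [← J11_even τ V V' hV hV', J11_inv τ V V' B]
        exact hB
      · rw [symmDiff_symmDiff_cancel_right]
        have h1 := Finset.map_subset_map (f := τ.symm.toEmbedding).mpr hBS
        rw [J11_map'] at h1
        exact h1

end DC99
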